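import Pool.Agent.H51.TM.Bessel

/-!
# Thue-Morse along polynomials: the symbol frequencies of most members of a linear family

For a finite set `S` of polynomials of degree at least two with natural values, whose pairwise
differences have degree at most one (for example all `P + T X + E` with `0 ≤ T, E < R`), and for
`ε > 0`: as soon as `N` is large, the members for which one of the two symbols has relative frequency
off by `ε` or more from one half, among the first `N` terms, have at most `1 / (4 ε²)` different
linear coefficients.  The number `1 / (4 ε²)` does not depend on `S` and `N`.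

The main point is that for two polynomials whose difference is linear and not constant the symbols
agree with frequency exactly one half.
-/

namespace Pool.Agent.Results.MP_b6022c_nt.FrequencyForMost

open Finset Polynomial Pool.Agent.H51.TM

/-- the Thue-Morse sequence: parity of the binary digit sum -/
def thueMorse (m : ℕ) : ℕ := (Nat.digits 2 m).sum % 2

/-- `P` takes natural values at the natural numbers -/
def NaturalValued (P : ℚ[X]) : Prop := ∀ n : ℕ, ∃ m : ℕ, P.eval (n : ℚ) = m

/-- relative frequency of the symbol `c` among the first `N` terms of `t (P n)` -/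
noncomputable def freq (P : ℚ[X]) (c N : ℕ) : ℝ :=
  ({n : ℕ | n < N ∧ ∃ m : ℕ, P.eval (n : ℚ) = m ∧ thueMorse m = c}.ncard : ℝ) / N

theorem freq_eq (P : ℚ[X]) (v : ℕ → ℕ) (hv : ∀ n : ℕ, P.eval (n : ℚ) = v n) (c N : ℕ) :
    freq P c N = (((range N).filter fun n => ds (v n) % 2 = c).card : ℝ) / N := by
  unfold freq
  have : {n : ℕ | n < N ∧ ∃ m : ℕ, P.eval (n : ℚ) = m ∧ thueMorse m = c} =
      (((range N).filter fun n => ds (v n) % 2 = c : Finset ℕ) : Set ℕ) := by
    ext n
    simp only [Set.mem_ofPred_eq, Finset.coe_filter, mem_range]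
    constructor
    · rintro ⟨h1, m, h2, h3⟩
      refine ⟨h1, ?_⟩
      have h4 : v n = m := by
        have := hv n; rw [h2] at this; exact_mod_cast this.symm
      rw [h4]; exact h3
    · rintro ⟨h1, h2⟩
      exact ⟨h1, v n, hv n, h2⟩
  rw [this, Set.ncard_coe_finset]

/-- Let `S` be a finite set of polynomials of degree at least two with natural values, with pairwise
differences of degree at most one, and `ε > 0`.  For all large `N` the members of `S` for which the
relative frequency of a symbol among the first `N` terms of `t (P n)` differs from one half by `ε` or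
more have at most `1 / (4 ε²)` different linear coefficients. -/
theorem result (S : Finset ℚ[X]) (hval : ∀ P ∈ S, NaturalValued P)
    (hdeg : ∀ P ∈ S, 2 ≤ P.natDegree) (hdiff : ∀ P ∈ S, ∀ Q ∈ S, (P - Q).natDegree ≤ 1)
    (ε : ℝ) (hε : 0 < ε) :
    ∀ᶠ N : ℕ in Filter.atTop,
      (((fun P : ℚ[X] => P.coeff 1) '' {P | P ∈ S ∧ ∃ c < 2, ε ≤ |freq P c N - 1 / 2|}).ncard : ℝ) ≤
        1 / (4 * ε ^ 2) := by
  set v : ℚ[X] → ℕ → ℕ := fun P n => ⌊P.eval (n : ℚ)⌋₊ with hv
  have hvP : ∀ P ∈ S, ∀ n : ℕ, P.eval (n : ℚ) = v P n := by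
    intro P hP n
    obtain ⟨m, hm⟩ := hval P hP n
    simp only [hv, hm, Nat.floor_natCast]
  have horth : ∀ P ∈ S, ∀ Q ∈ S, P.coeff 1 ≠ Q.coeff 1 →
      Small fun n => sg (v P n) * sg (v Q n) := by
    intro P hP Q hQ hne
    apply orth P Q (v P) (v Q) (hvP P hP) (hvP Q hQ) (hdeg P hP)
    have h1 : (P - Q).coeff 1 ≠ 0 := by rw [coeff_sub]; exact sub_ne_zero.2 hne
    exact le_antisymm (hdiff P hP Q hQ) (le_natDegree_of_ne_zero h1)
  filter_upwards [few_biased_set S v (fun P => P.coeff 1) horth ε hε] with N hN
  have hset : {P | P ∈ S ∧ ∃ c < 2, ε ≤ |freq P c N - 1 / 2|} =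
      {P | P ∈ S ∧ Biased (v P) N ε} := by
    ext P
    simp only [Set.mem_ofPred_eq]
    constructor
    · rintro ⟨h1, c, hc, h2⟩
      refine ⟨h1, c, hc, ?_⟩
      rwa [freq_eq P (v P) (hvP P h1)] at h2
    · rintro ⟨h1, c, hc, h2⟩
      refine ⟨h1, c, hc, ?_⟩
      rwa [freq_eq P (v P) (hvP P h1)]
  rw [hset]
  exact hN

end Pool.Agent.Results.MP_b6022c_nt.FrequencyForMost
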