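import Pool.Agent.H51.TM.Witness

/-!
# Thue-Morse along polynomials: both symbols have positive lower density

Let `P` be a polynomial with natural values whose second derivative is `a (X + b) ^ m`, where `a ≠ 0`
and `b` has odd denominator; equivalently `P = A (X + b) ^ d + B (X + b) + C`, `d = m + 2`.

* If `B ≠ 0`, or if for one dilation `n' + b = 2 ^ k (n + b)` the symbols at `n` and `n'` differ, then
  both symbols have positive lower density in `t (P n)`.
* If `B ≠ 0` and `(2 ^ k - 1) b` is an integer, `k ≥ 1`, the lower densities are at least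
  `1 / (2 (2 ^ k + 1))`.

For `B ≠ 0` the numbers `2 ^ (d k) P z` and `P (2 ^ k z)`, in the variable `z = n + b`, differ by a
linear polynomial which is not constant, so that the symbols at `z` and `2 ^ k z` are asymptotically
uncorrelated on every residue class; disjoint pairs `(z, 2 ^ k z)` give the bound.
-/

namespace Pool.Agent.Results.MP_b6022c_nt.LowerDensity

open Finset Polynomial Filter Pool.Agent.H51.TM

/-- the Thue-Morse sequence: parity of the binary digit sum -/
def thueMorse (m : ℕ) : ℕ := (Nat.digits 2 m).sum % 2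

/-- relative frequency of the symbol `c` among the first `N` terms of `t (P n)` -/
noncomputable def freq (P : ℚ[X]) (c N : ℕ) : ℝ :=
  ({n : ℕ | n < N ∧ ∃ m : ℕ, P.eval (n : ℚ) = m ∧ thueMorse m = c}.ncard : ℝ) / N

/-- lower density of the symbol `c` in `t (P n)` -/
noncomputable def lowerDensity (P : ℚ[X]) (c : ℕ) : ℝ :=
  liminf (fun N : ℕ => freq P c N) atTop

theorem freq_eq (P : ℚ[X]) (v : ℕ → ℕ) (hv : ∀ n : ℕ, P.eval (n : ℚ) = v n) (c N : ℕ) :
    freq P c N = (((range N).filter fun n => ds (v n) % 2 = c).card : ℝ) / N := by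
  unfold freq
  have : {n : ℕ | n < N ∧ ∃ m : ℕ, P.eval (n : ℚ) = m ∧ thueMorse m = c} =
      (((range N).filter fun n => ds (v n) % 2 = c : Finset ℕ) : Set ℕ) := by
    ext n
    simp only [Set.mem_ofPred_eq, Finset.coe_filter, mem_range]
    constructor
    · rintro ⟨h1, m, h2, h3⟩
      refine ⟨h1, ?_⟩
      have h4 : v n = m := by
        have := hv n; rw [h2] at this; exact_mod_cast this.symm
      rw [h4]; exact h3
    · rintro ⟨h1, h2⟩
      exact ⟨h1, v n, hv n, h2⟩
  rw [this, Set.ncard_coe_finset]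

theorem le_lowerDensity (P : ℚ[X]) (v : ℕ → ℕ) (hv : ∀ n : ℕ, P.eval (n : ℚ) = v n) (c : ℕ) (δ : ℝ)
    (h : ∀ᶠ M : ℕ in atTop, δ * M ≤ (((range M).filter fun n => ds (v n) % 2 = c).card : ℝ)) :
    δ ≤ lowerDensity P c := by
  unfold lowerDensity
  have hbd : ∀ N : ℕ, freq P c N ≤ 1 := by
    intro N
    rw [freq_eq P v hv]
    apply div_le_one_of_le₀ _ (Nat.cast_nonneg _)
    have : ((range N).filter fun n => ds (v n) % 2 = c).card ≤ N := by
      simpa using Finset.card_filter_le (range N) (fun n => ds (v n) % 2 = c)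
    exact_mod_cast this
  apply le_liminf_of_le
  · exact isCoboundedUnder_ge_of_le atTop hbd
  · filter_upwards [h, eventually_gt_atTop 0] with M hM hM0
    rw [freq_eq P v hv, le_div_iff₀ (by exact_mod_cast hM0)]
    exact hM

/-- the general explicit bound -/
theorem density_explicit (A b B C₀ : ℚ) (d : ℕ) (hd : 2 ≤ d) (hA : A ≠ 0) (hB : B ≠ 0)
    (hb : Odd b.den) (k : ℕ) (hk : 1 ≤ k) (z : ℤ) (hz : (2 ^ k - 1) * b = z) (v : ℕ → ℕ)
    (hv : ∀ n : ℕ, A * ((n : ℚ) + b) ^ d + B * ((n : ℚ) + b) + C₀ = v n) (c : ℕ) (hc : c < 2)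
    (δ : ℝ) (hδ : δ < 1 / (2 * (2 ^ k + 1))) :
    ∀ᶠ M : ℕ in atTop, δ * M ≤ (((range M).filter fun n => ds (v n) % 2 = c).card : ℝ) := by
  rcases le_or_gt δ 0 with h0 | h0
  · filter_upwards with M
    have : δ * M ≤ 0 := mul_nonpos_of_nonpos_of_nonneg h0 (Nat.cast_nonneg _)
    exact this.trans (Nat.cast_nonneg _)
  set n1 := z.natAbs with hn1
  have h2k : (1 : ℤ) ≤ 2 ^ k - 1 := by
    have : (2 : ℤ) ^ 1 ≤ 2 ^ k := pow_le_pow_right₀ (by norm_num) hk
    linarith
  obtain ⟨β, hβ⟩ : ∃ β : ℕ, (β : ℤ) = (2 ^ k - 1) * n1 + z := by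
    refine ⟨((2 ^ k - 1) * n1 + z : ℤ).toNat, Int.toNat_of_nonneg ?_⟩
    have h3 : (n1 : ℤ) ≤ (2 ^ k - 1) * n1 := le_mul_of_one_le_left (by positivity) h2k
    have h4 : -(n1 : ℤ) ≤ z := by
      have := neg_abs_le z
      rwa [Int.abs_eq_natAbs] at this
    linarith
  have hβ' : (β : ℚ) = (2 ^ k - 1) * (b + n1) := by
    have : (β : ℚ) = (2 ^ k - 1) * n1 + z := by exact_mod_cast hβ
    rw [this, ← hz]; ring
  obtain ⟨δ', hδ1, hδ2⟩ := exists_between hδ
  have hcore := density_core A (b + n1) B C₀ d hd hA hB (by rw [Rat.add_natCast_den]; exact hb) k β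
    hk hβ' (fun n => v (n1 + n)) (by
      intro n
      rw [← hv (n1 + n)]; push_cast; ring) c hc δ' hδ2
  rw [eventually_atTop] at hcore ⊢
  obtain ⟨N0, hN0⟩ := hcore
  obtain ⟨N1, hN1⟩ := exists_nat_gt (δ' * n1 / (δ' - δ))
  refine ⟨n1 + N0 + N1, ?_⟩
  intro M hM
  obtain ⟨M', rfl⟩ : ∃ M', M = n1 + M' := ⟨M - n1, by omega⟩
  have h1 := hN0 M' (by omega)
  have h2 : ((range M').filter fun n => ds (v (n1 + n)) % 2 = c).card ≤
      ((range (n1 + M')).filter fun n => ds (v n) % 2 = c).card := by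
    apply Finset.card_le_card_of_injOn (fun n => n1 + n)
    · intro n hn
      simp only [Finset.coe_filter, mem_range, Set.mem_ofPred_eq] at hn ⊢
      exact ⟨by omega, hn.2⟩
    · intro n _ n' _ h
      have : n1 + n = n1 + n' := h
      omega
  have h3 : (((range M').filter fun n => ds (v (n1 + n)) % 2 = c).card : ℝ) ≤
      (((range (n1 + M')).filter fun n => ds (v n) % 2 = c).card : ℝ) := by exact_mod_cast h2
  have h4 : δ' * n1 ≤ (δ' - δ) * ((n1 + M' : ℕ) : ℝ) := by
    rw [div_lt_iff₀ (by linarith)] at hN1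
    have h5 : (N1 : ℝ) ≤ ((n1 + M' : ℕ) : ℝ) := by
      have : N1 ≤ n1 + M' := by omega
      exact_mod_cast this
    have h6 : (N1 : ℝ) * (δ' - δ) ≤ ((n1 + M' : ℕ) : ℝ) * (δ' - δ) :=
      mul_le_mul_of_nonneg_right h5 (by linarith)
    linarith
  push_cast at h4 ⊢
  linarith

theorem form_of_second_derivative (P : ℚ[X]) (a b : ℚ) (m : ℕ)
    (hform : derivative (derivative P) = C a * (X + C b) ^ m) :
    P = C (a / ((m + 1) * (m + 2))) * (X + C b) ^ (m + 2) +
      C (P.derivative.eval (-b)) * (X + C b) + C (P.eval (-b)) := by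
  set A : ℚ := a / ((m + 1) * (m + 2)) with hA
  have hAa : A * (m + 2) * (m + 1) = a := by
    rw [hA]; field_simp
  set R : ℚ[X] := P - (C A * (X + C b) ^ (m + 2) +
      C (P.derivative.eval (-b)) * (X + C b) + C (P.eval (-b))) with hR
  have e1 : derivative R = derivative P - (C (A * (m + 2)) * (X + C b) ^ (m + 1) +
      C (P.derivative.eval (-b))) := by
    rw [hR, derivative_sub, derivative_add, derivative_add, derivative_C_mul, derivative_C_mul,
      derivative_C, derivative_X_add_C_pow, derivative_add, derivative_X, derivative_C]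
    have : m + 2 - 1 = m + 1 := by omega
    rw [this]
    simp only [map_mul, map_add, map_natCast, map_ofNat]
    push_cast
    ring
  have e2 : derivative (derivative R) = 0 := by
    rw [e1, derivative_sub, derivative_add, derivative_C_mul, derivative_C,
      derivative_X_add_C_pow, hform, ← hAa]
    have : m + 1 - 1 = m := by omega
    rw [this]
    simp only [map_mul, map_add, map_natCast, map_ofNat, map_one]
    push_cast
    ring
  have h1 : (derivative R).natDegree = 0 := derivative_eq_zero.1 e2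
  have h2 : derivative R = C ((derivative R).coeff 0) := eq_C_of_natDegree_eq_zero h1
  have h3 : (derivative R).eval (-b) = 0 := by
    rw [e1]; simp
  have h4 : derivative R = 0 := by
    rw [h2] at h3 ⊢
    rw [eval_C] at h3
    rw [h3, C_0]
  have h5 : R = C (R.coeff 0) := eq_C_of_natDegree_eq_zero (derivative_eq_zero.1 h4)
  have h6 : R.eval (-b) = 0 := by
    rw [hR]; simp
  have h7 : R = 0 := by
    rw [h5] at h6 ⊢
    rw [eval_C] at h6
    rw [h6, C_0]
  exact sub_eq_zero.1 h7

/-- Let `P` be a polynomial with natural values and second derivative `a (X + b) ^ m`, `a ≠ 0`, `b` of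
odd denominator.  If the derivative of `P` does not vanish at `-b`, or if the symbols at some `n` and
`n'` with `n' + b = 2 ^ k (n + b)` differ, then each symbol has positive lower density in `t (P n)`.
In the first case the lower density is at least `1 / (2 (2 ^ k + 1))` for every `k ≥ 1` such that
`(2 ^ k - 1) b` is an integer. -/
theorem result (P : ℚ[X]) (hP : ∀ n : ℕ, ∃ r : ℕ, P.eval (n : ℚ) = r) (a b : ℚ) (m : ℕ) (ha : a ≠ 0)
    (hb : Odd b.den) (hform : derivative (derivative P) = C a * (X + C b) ^ m) (c : ℕ) (hc : c < 2) :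
    ((P.derivative.eval (-b) ≠ 0 ∨ ∃ k n n' r r' : ℕ, (n' : ℚ) + b = 2 ^ k * ((n : ℚ) + b) ∧
      P.eval (n : ℚ) = r ∧ P.eval (n' : ℚ) = r' ∧ thueMorse r ≠ thueMorse r') →
      0 < lowerDensity P c) ∧
    (P.derivative.eval (-b) ≠ 0 → ∀ k : ℕ, 1 ≤ k → (∃ z : ℤ, (2 ^ k - 1) * b = z) →
      1 / (2 * (2 ^ k + 1)) ≤ lowerDensity P c) := by
  choose v hv using hP
  set A : ℚ := a / ((m + 1) * (m + 2)) with hA
  set B : ℚ := P.derivative.eval (-b) with hB
  set C₀ : ℚ := P.eval (-b) with hC
  have hA0 : A ≠ 0 := by rw [hA]; positivity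
  have hPf : P = C A * (X + C b) ^ (m + 2) + C B * (X + C b) + C C₀ :=
    form_of_second_derivative P a b m hform
  have hv' : ∀ n : ℕ, A * ((n : ℚ) + b) ^ (m + 2) + B * ((n : ℚ) + b) + C₀ = v n := by
    intro n
    rw [← hv, hPf]
    simp
  have hexp : B ≠ 0 → ∀ k : ℕ, 1 ≤ k → (∃ z : ℤ, (2 ^ k - 1) * b = z) →
      1 / (2 * (2 ^ k + 1)) ≤ lowerDensity P c := by
    intro hB0 k hk hz
    obtain ⟨z, hz⟩ := hz
    apply le_of_forall_lt
    intro δ hδ
    obtain ⟨δ', hδ1, hδ2⟩ := exists_between hδ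
    exact lt_of_lt_of_le hδ1 (le_lowerDensity P v hv c δ' (density_explicit A b B C₀ (m + 2)
      (by omega) hA0 hB0 hb k hk z hz v hv' c hc δ' hδ2))
  refine ⟨?_, hexp⟩
  intro hw
  by_cases hB0 : B = 0
  · rcases hw with h | ⟨k, n, n', r, r', h1, h2, h3, h4⟩
    · exact absurd hB0 h
    · have e1 : v n = r := by
        have := hv n; rw [h2] at this; exact_mod_cast this.symm
      have e2 : v n' = r' := by
        have := hv n'; rw [h3] at this; exact_mod_cast this.symm
      obtain ⟨k', M, K, n1, hn1, H⟩ := family_of_witness A b C₀ (m + 2) hA0 v (by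
        intro i; rw [← hv' i, hB0]; ring) k n n' h1 (by rw [e1, e2]; exact h4) hb
      obtain ⟨δ, hδ, N0, hN0⟩ := density_of_family v b k' M K n1 hn1 H c hc
      refine lt_of_lt_of_le hδ (le_lowerDensity P v hv c δ ?_)
      rw [eventually_atTop]
      exact ⟨N0, hN0⟩
  · obtain ⟨k, κ, hk, hκ⟩ := exists_dilation b hb
    have hz : (2 ^ k - 1) * b = κ := by
      have := hκ 0
      push_cast at this
      linarith
    refine lt_of_lt_of_le ?_ (hexp hB0 k hk ⟨κ, hz⟩)
    positivity

end Pool.Agent.Results.MP_b6022c_nt.LowerDensity
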