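import Pool.Agent.H9.TC.Main
import Pool.Agent.H20.T4.Main

/-!
# The Thue-Morse sequence along every polynomial of degree `d`, `3 ≤ d ≤ 4`, is normal

`thueMorse m` is the parity of the sum of the binary digits of `m`.  Let `P` be a polynomial of degree
`d`, `3 ≤ d ≤ 4`, with rational coefficients which takes natural number values at all natural numbers.
Then every word `w` of length `k` over `{0, 1}` occurs in the sequence `t(P(0)), t(P(1)), t(P(2)), ...`
with asymptotic frequency `2^(-k)`.  For `k = 1`: both symbols have frequency `1/2`.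
-/

namespace Pool.Agent.Results.MP_b6022c_nt.NormalDegreesThreeFour

open Filter Topology

/-- the Thue-Morse sequence: parity of the binary digit sum -/
def thueMorse (m : ℕ) : ℕ := (Nat.digits 2 m).sum % 2

/-- `P` takes natural values at the natural numbers -/
def NaturalValued (P : Polynomial ℚ) : Prop := ∀ n : ℕ, ∃ m : ℕ, P.eval (n : ℚ) = m

/-- number of the `n < N` at which the word `w` of length `k` occurs in `t(P(0)), t(P(1)), ...` -/
noncomputable def occurrences (P : Polynomial ℚ) (k : ℕ) (w : Fin k → ℕ) (N : ℕ) : ℕ :=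
  {n : ℕ | n < N ∧ ∀ i : Fin k, ∃ m : ℕ, P.eval ((n + i : ℕ) : ℚ) = m ∧ thueMorse m = w i}.ncard

/-- Let `P` be a polynomial of degree `d`, `3 ≤ d ≤ 4`, with rational coefficients and natural values
at the natural numbers.  Then `t(P(n))` is normal: every word of length `k` over `{0, 1}` occurs in it
with asymptotic frequency `2^(-k)`. -/
theorem result (P : Polynomial ℚ) (hP : NaturalValued P) (h3 : 3 ≤ P.natDegree)
    (h4 : P.natDegree ≤ 4) (k : ℕ) (w : Fin k → ℕ) (hw : ∀ i, w i < 2) :
    Tendsto (fun N : ℕ => (occurrences P k w N : ℝ) / N) atTop (𝓝 ((1 / 2) ^ k)) := by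
  have h : Tendsto (fun N : ℕ => (((Finset.range N).filter
      (fun n => ∀ i : Fin k, Pool.Agent.H9.TC.thueMorse (Pool.Agent.H9.TC.val P (n + i)) =
        ((⟨w i, hw i⟩ : Fin 2) : ℕ))).card : ℝ) / N) atTop (𝓝 ((1 / 2) ^ k)) := by
    rcases (by omega : P.natDegree = 3 ∨ P.natDegree = 4) with hdeg | hdeg
    · exact Pool.Agent.H9.TC.thmB Pool.Agent.H9.TC.thmAStmt P hdeg hP k (fun i => ⟨w i, hw i⟩)
    · exact Pool.Agent.H20.T4.thmB4 P hdeg hP k (fun i => ⟨w i, hw i⟩)
  refine h.congr fun N => ?_
  congr 2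
  unfold occurrences
  rw [← Set.ncard_coe_finset]
  congr 1
  ext n
  simp only [Finset.coe_filter, Finset.mem_range, Set.mem_ofPred_eq]
  refine and_congr_right fun _ => forall_congr' fun i => ?_
  have hv := Pool.Agent.H9.TC.val_cast (P := P) hP (n + i)
  constructor
  · intro h1
    exact ⟨_, hv.symm, h1⟩
  · rintro ⟨m, h1, h2⟩
    have h3 : Pool.Agent.H9.TC.val P (n + i) = m := by
      rw [h1] at hv
      exact_mod_cast hv
    rw [h3]
    exact h2

end Pool.Agent.Results.MP_b6022c_nt.NormalDegreesThreeFour
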