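import Mathlib

/-!
# Thue-Morse along `A (n + b) ^ d - B`, `d` odd: both symbols have positive lower density

`thueMorse m` is the parity of the sum of the binary digits of `m`.  For odd `d` and natural
numbers `A, b, B, j` with `1 ≤ B ≤ A b ^ d` and `B ≤ 2 ^ (j d)` each symbol has lower density at
least `1 / (3 * 2 ^ j)` in the sequence `thueMorse (A (n + b) ^ d - B)`.

The proof compares `z = n + b` and `2 z`, `z` a multiple of `2 ^ j`: the values
`A (2 z) ^ d - B` and `A z ^ d - B` have digit sums of different parity, as the first number has the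
same digits as the second one with `d` ones inserted.
-/

namespace Pool.Agent.Results.MP_b6022c_nt.PositiveDensity

open Finset

/-- the Thue-Morse sequence: parity of the binary digit sum -/
def thueMorse (m : ℕ) : ℕ := (Nat.digits 2 m).sum % 2

/-- the binary digit sum -/
def ds (m : ℕ) : ℕ := (Nat.digits 2 m).sum

theorem ds_two (m c : ℕ) (hc : c < 2) : ds (2 * m + c) = ds m + c := by
  rcases Nat.eq_zero_or_pos (2 * m + c) with h | h
  · have h1 : m = 0 := by omega
    have h2 : c = 0 := by omega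
    subst h1; subst h2; simp [ds]
  · unfold ds
    rw [Nat.digits_def' (by norm_num) h]
    have e1 : (2 * m + c) % 2 = c := by omega
    have e2 : (2 * m + c) / 2 = m := by omega
    rw [e1, e2, List.sum_cons, add_comm]

theorem ds_split (a k : ℕ) : ∀ r : ℕ, r < 2 ^ k → ds (2 ^ k * a + r) = ds a + ds r := by
  induction k with
  | zero =>
    intro r hr
    have : r = 0 := by simpa using hr
    subst this
    simp [ds]
  | succ k ih =>
    intro r hr
    have hlt : r / 2 < 2 ^ k := by
      rw [pow_succ] at hr; omega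
    have e1 : 2 ^ (k + 1) * a + r = 2 * (2 ^ k * a + r / 2) + r % 2 := by
      have := Nat.div_add_mod r 2
      rw [pow_succ]; nlinarith
    have e2 : r = 2 * (r / 2) + r % 2 := by omega
    rw [e1, ds_two _ _ (Nat.mod_lt _ (by norm_num)), ih _ hlt]
    conv_rhs => rw [e2, ds_two _ _ (Nat.mod_lt _ (by norm_num))]
    ring

theorem ds_ones (d : ℕ) : ds (2 ^ d - 1) = d := by
  induction d with
  | zero => simp [ds]
  | succ d ih =>
    have h1 : 1 ≤ 2 ^ d := Nat.one_le_two_pow
    have e1 : 2 ^ (d + 1) - 1 = 2 * (2 ^ d - 1) + 1 := by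
      rw [pow_succ]; omega
    rw [e1, ds_two _ _ (by norm_num), ih]

/-- the key relation -/
theorem key (d A B j y : ℕ) (hA : 1 ≤ A) (hB : 1 ≤ B) (hj : B ≤ 2 ^ (j * d)) (hy : 1 ≤ y) :
    ds (A * (2 ^ j * (2 * y)) ^ d - B) = ds (A * (2 ^ j * y) ^ d - B) + d := by
  set X := A * y ^ d with hX
  have hX1 : 1 ≤ X := Nat.mul_pos hA (pow_pos hy d)
  obtain ⟨x, hx⟩ : ∃ x, X = x + 1 := ⟨X - 1, by omega⟩
  have e1 : A * (2 ^ j * y) ^ d - B = 2 ^ (j * d) * x + (2 ^ (j * d) - B) := by
    have : A * (2 ^ j * y) ^ d = 2 ^ (j * d) * x + 2 ^ (j * d) := by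
      have : A * (2 ^ j * y) ^ d = 2 ^ (j * d) * X := by
        rw [hX, mul_pow, ← pow_mul]; ring
      rw [this, hx]; ring
    rw [this]; omega
  have e2 : A * (2 ^ j * (2 * y)) ^ d - B =
      2 ^ (j * d) * (2 ^ d * x + (2 ^ d - 1)) + (2 ^ (j * d) - B) := by
    have h1 : 1 ≤ 2 ^ d := Nat.one_le_two_pow
    obtain ⟨m, hm⟩ : ∃ m, 2 ^ d = m + 1 := ⟨2 ^ d - 1, by omega⟩
    have h2 : A * (2 ^ j * (2 * y)) ^ d = 2 ^ (j * d) * (2 ^ d * x + m) + 2 ^ (j * d) := by
      have h3 : A * (2 ^ j * (2 * y)) ^ d = 2 ^ (j * d) * (2 ^ d * X) := by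
        rw [hX, mul_pow, mul_pow, ← pow_mul]; ring
      rw [h3, hx]
      have : 2 ^ d * (x + 1) = 2 ^ d * x + (m + 1) := by rw [← hm]; ring
      rw [this]; ring
    have h4 : 2 ^ d - 1 = m := by omega
    rw [h2, h4]; omega
  have hr : 2 ^ (j * d) - B < 2 ^ (j * d) := by
    have : 0 < 2 ^ (j * d) := by positivity
    omega
  have hr' : 2 ^ d - 1 < 2 ^ d := by
    have : 0 < 2 ^ d := by positivity
    omega
  rw [e1, e2, ds_split _ _ _ hr, ds_split _ _ _ hr, ds_split _ _ _ hr', ds_ones]
  ring

/-- counting: if `T (2 y)` is the negation of `T y`, then `F (4 q) ≥ q + F q` -/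
theorem count_step (T : ℕ → Prop) [DecidablePred T] (hT : ∀ y, 1 ≤ y → (T (2 * y) ↔ ¬ T y)) (q : ℕ) :
    q + ((Icc 1 q).filter T).card ≤ ((Icc 1 (4 * q)).filter T).card := by
  classical
  -- multiples of two
  have hev : ∀ x : ℕ, ((Icc 1 (2 * x)).filter fun y => T y ∧ Even y).card
      + ((Icc 1 x).filter T).card = x := by
    intro x
    have h1 : ((Icc 1 (2 * x)).filter fun y => T y ∧ Even y).card =
        ((Icc 1 x).filter fun y => ¬ T y).card := by
      apply (Finset.card_bij (fun y _ => 2 * y) _ _ _).symm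
      · intro y hy
        simp only [mem_filter, mem_Icc] at hy ⊢
        exact ⟨⟨by omega, by omega⟩, (hT y hy.1.1).2 hy.2, even_two_mul y⟩
      · intro y _ z _ h
        omega
      · intro y hy
        simp only [mem_filter, mem_Icc] at hy
        obtain ⟨u, hu⟩ := hy.2.2
        have hu' : y = 2 * u := by omega
        refine ⟨u, ?_, hu'.symm⟩
        simp only [mem_filter, mem_Icc]
        have h1u : 1 ≤ u := by omega
        refine ⟨⟨h1u, by omega⟩, (hT u h1u).1 ?_⟩
        rw [← hu']; exact hy.2.1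
    rw [h1, add_comm]
    have := Finset.card_filter_add_card_filter_not (s := Icc 1 x) T
    rw [this, Nat.card_Icc]; omega
  have hsplit : ∀ x : ℕ, ((Icc 1 x).filter T).card =
      ((Icc 1 x).filter fun y => T y ∧ Even y).card + ((Icc 1 x).filter fun y => T y ∧ ¬ Even y).card := by
    intro x
    rw [← Finset.filter_filter, ← Finset.filter_filter]
    exact (Finset.card_filter_add_card_filter_not (s := (Icc 1 x).filter T) Even).symm
  have hmono : ((Icc 1 (2 * q)).filter fun y => T y ∧ ¬ Even y).card ≤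
      ((Icc 1 (2 * (2 * q))).filter fun y => T y ∧ ¬ Even y).card := by
    apply Finset.card_le_card
    intro y hy
    simp only [mem_filter, mem_Icc] at hy ⊢
    exact ⟨⟨hy.1.1, by omega⟩, hy.2⟩
  have a1 := hev q
  have a2 := hev (2 * q)
  have a3 := hsplit (2 * q)
  have a4 := hsplit (2 * (2 * q))
  have a5 : 4 * q = 2 * (2 * q) := by ring
  rw [a5]
  omega

theorem count_bound (T : ℕ → Prop) [DecidablePred T] (hT : ∀ y, 1 ≤ y → (T (2 * y) ↔ ¬ T y)) :
    ∀ Y : ℕ, Y ≤ 3 * ((Icc 1 Y).filter T).card + 3 * (Nat.log 4 Y + 1) := by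
  intro Y
  induction Y using Nat.strong_induction_on with
  | _ Y ih =>
    rcases Nat.eq_zero_or_pos (Y / 4) with h | h
    · omega
    · have hlt : Y / 4 < Y := by omega
      have i1 := ih _ hlt
      have i2 := count_step T hT (Y / 4)
      have i3 : ((Icc 1 (4 * (Y / 4))).filter T).card ≤ ((Icc 1 Y).filter T).card := by
        apply Finset.card_le_card
        intro y hy
        simp only [mem_filter, mem_Icc] at hy ⊢
        exact ⟨⟨hy.1.1, by omega⟩, hy.2⟩
      have i4 : Nat.log 4 Y = Nat.log 4 (Y / 4) + 1 := by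
        apply Nat.log_of_one_lt_of_le (by norm_num)
        omega
      omega

theorem result (d A b B j : ℕ) (hd : Odd d) (hB : 1 ≤ B) (hb : B ≤ A * b ^ d)
    (hj : B ≤ 2 ^ (j * d)) :
    ∃ C : ℝ, ∀ c < 2, ∀ N : ℕ, 1 ≤ N →
      (1 / (3 * 2 ^ j) : ℝ) * N - C * (1 + Real.log N) ≤
        (((range N).filter fun n => thueMorse (A * (n + b) ^ d - B) = c).card : ℝ) ∧
      (((range N).filter fun n => thueMorse (A * (n + b) ^ d - B) = c).card : ℝ) ≤
        (1 - 1 / (3 * 2 ^ j) : ℝ) * N + C * (1 + Real.log N) := by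
  classical
  have hA : 1 ≤ A := by
    rcases Nat.eq_zero_or_pos A with h | h
    · rw [h, zero_mul] at hb; omega
    · exact h
  -- the relation for the symbols
  have hrel : ∀ c < 2, ∀ y, 1 ≤ y → (thueMorse (A * (2 ^ j * (2 * y)) ^ d - B) = c ↔
      ¬ thueMorse (A * (2 ^ j * y) ^ d - B) = c) := by
    intro c hc y hy
    have h := key d A B j y hA hB hj hy
    have h1 : thueMorse (A * (2 ^ j * (2 * y)) ^ d - B) =
        (ds (A * (2 ^ j * y) ^ d - B) + d) % 2 := by
      unfold thueMorse; rw [← h]; rfl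
    have h2 : thueMorse (A * (2 ^ j * y) ^ d - B) = ds (A * (2 ^ j * y) ^ d - B) % 2 := rfl
    rw [h1, h2]
    obtain ⟨k, hk⟩ := hd
    omega
  -- the lower bound in natural numbers
  have hlow : ∀ c < 2, ∀ N : ℕ, 1 ≤ N → N ≤ 3 * 2 ^ j *
      ((range N).filter fun n => thueMorse (A * (n + b) ^ d - B) = c).card +
      (3 * 2 ^ j * b + 3 * 2 ^ j * (Nat.log 4 (N + b) + 2)) := by
    intro c hc N hN
    set T : ℕ → Prop := fun y => thueMorse (A * (2 ^ j * y) ^ d - B) = c with hTdef
    set Y := (N + b - 1) / 2 ^ j with hY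
    have hpos : 0 < 2 ^ j := by positivity
    have hcb := count_bound T (hrel c hc) Y
    have hYle : Y ≤ N + b := le_trans (Nat.div_le_self _ _) (by omega)
    have hlog : Nat.log 4 Y ≤ Nat.log 4 (N + b) := Nat.log_mono_right hYle
    have hYN : N + b ≤ 2 ^ j * Y + 2 ^ j := by
      have h1 := Nat.div_add_mod (N + b - 1) (2 ^ j)
      have h2 := Nat.mod_lt (N + b - 1) hpos
      rw [← hY] at h1
      omega
    -- the injection
    have hinj : ((Icc 1 Y).filter T).card ≤
        ((range N).filter fun n => thueMorse (A * (n + b) ^ d - B) = c).card + b := by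
      have hsub : ((Icc 1 Y).filter T) ⊆
          (((Icc 1 Y).filter fun y => T y ∧ b ≤ 2 ^ j * y) ∪ ((Icc 1 Y).filter fun y => y < b)) := by
        intro y hy
        simp only [mem_union, mem_filter, mem_Icc] at hy ⊢
        by_cases h : b ≤ 2 ^ j * y
        · exact Or.inl ⟨hy.1, hy.2, h⟩
        · right
          refine ⟨hy.1, ?_⟩
          have : y ≤ 2 ^ j * y := Nat.le_mul_of_pos_left y hpos
          omega
      have hc1 : ((Icc 1 Y).filter fun y => y < b).card ≤ b := by
        calc ((Icc 1 Y).filter fun y => y < b).card ≤ (range b).card := by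
              apply Finset.card_le_card
              intro y hy
              simp only [mem_filter, mem_Icc, mem_range] at hy ⊢
              exact hy.2
          _ = b := Finset.card_range b
      have hc2 : ((Icc 1 Y).filter fun y => T y ∧ b ≤ 2 ^ j * y).card ≤
          ((range N).filter fun n => thueMorse (A * (n + b) ^ d - B) = c).card := by
        apply Finset.card_le_card_of_injOn (fun y => 2 ^ j * y - b)
        · intro y hy
          simp only [Finset.coe_filter, Set.mem_ofPred_eq, mem_Icc] at hy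
          simp only [Finset.coe_filter, Set.mem_ofPred_eq, mem_range]
          have h1 : 2 ^ j * y ≤ 2 ^ j * Y := Nat.mul_le_mul_left _ hy.1.2
          have h2 : 2 ^ j * Y ≤ N + b - 1 := by
            rw [hY]; exact Nat.mul_div_le _ _
          refine ⟨by omega, ?_⟩
          have h3 : 2 ^ j * y - b + b = 2 ^ j * y := by omega
          rw [h3]
          exact hy.2.1
        · intro y hy z hz h
          simp only [Finset.coe_filter, Set.mem_ofPred_eq, mem_Icc] at hy hz
          have h' : 2 ^ j * y - b = 2 ^ j * z - b := h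
          have : 2 ^ j * y = 2 ^ j * z := by omega
          exact Nat.eq_of_mul_eq_mul_left hpos this
      calc ((Icc 1 Y).filter T).card ≤ _ := Finset.card_le_card hsub
        _ ≤ _ := Finset.card_union_le _ _
        _ ≤ _ := by omega
    have h3 : 2 ^ j * Y ≤ 2 ^ j * (3 * (((range N).filter fun n =>
        thueMorse (A * (n + b) ^ d - B) = c).card + b) + 3 * (Nat.log 4 (N + b) + 1)) :=
      Nat.mul_le_mul_left _ (by omega)
    nlinarith [h3, hYN]
  -- the two counts add up to `N`
  have hsum : ∀ N : ℕ, ∀ c < 2, ((range N).filter fun n => thueMorse (A * (n + b) ^ d - B) = c).card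
      + ((range N).filter fun n => thueMorse (A * (n + b) ^ d - B) = 1 - c).card = N := by
    intro N c hc
    have h1 : ((range N).filter fun n => thueMorse (A * (n + b) ^ d - B) = 1 - c) =
        ((range N).filter fun n => ¬ thueMorse (A * (n + b) ^ d - B) = c) := by
      apply Finset.filter_congr
      intro n _
      have : thueMorse (A * (n + b) ^ d - B) < 2 := Nat.mod_lt _ (by norm_num)
      omega
    rw [h1, Finset.card_filter_add_card_filter_not, Finset.card_range]
  -- logarithms
  have hlogN : ∀ N : ℕ, 1 ≤ N → ((Nat.log 4 (N + b) : ℕ) : ℝ) ≤ 1 + b + Real.log N := by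
    intro N hN
    have h1 : ((Nat.log 4 (N + b) : ℕ) : ℝ) ≤ Real.logb 4 ((N + b : ℕ) : ℝ) := by
      exact_mod_cast Real.natLog_le_logb (N + b) 4
    have h2 : Real.logb 4 ((N + b : ℕ) : ℝ) ≤ Real.log ((N + b : ℕ) : ℝ) := by
      have hlog4 : 1 ≤ Real.log 4 := by
        have : Real.log 4 = 2 * Real.log 2 := by
          rw [show (4 : ℝ) = 2 ^ 2 by norm_num, Real.log_pow]; norm_num
        rw [this]
        have := Real.log_two_gt_d9
        linarith
      have hnn : 0 ≤ Real.log ((N + b : ℕ) : ℝ) := Real.log_natCast_nonneg _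
      unfold Real.logb
      rw [div_le_iff₀ (by linarith)]
      nlinarith
    have h3 : Real.log ((N + b : ℕ) : ℝ) ≤ Real.log N + b := by
      have hNpos : (0 : ℝ) < N := by exact_mod_cast hN
      have hN1 : (1 : ℝ) ≤ N := by exact_mod_cast hN
      have e1 : ((N + b : ℕ) : ℝ) = N * (1 + b / N) := by
        push_cast; field_simp
      have hbn : (0 : ℝ) ≤ b / N := by positivity
      rw [e1, Real.log_mul hNpos.ne' (by positivity)]
      have h4 : Real.log (1 + b / N) ≤ b / N := by
        have := Real.log_le_sub_one_of_pos (x := 1 + (b : ℝ) / N) (by positivity)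
        linarith
      have h5 : (b : ℝ) / N ≤ b := div_le_self (by positivity) hN1
      linarith
    linarith
  refine ⟨b + (3 + b), ?_⟩
  have hreal : ∀ c < 2, ∀ N : ℕ, 1 ≤ N → (1 / (3 * 2 ^ j) : ℝ) * N - (b + (3 + b)) * (1 + Real.log N) ≤
        (((range N).filter fun n => thueMorse (A * (n + b) ^ d - B) = c).card : ℝ) := by
    intro c hc N hN
    have h1 := hlow c hc N hN
    have h2 : (N : ℝ) ≤ 3 * 2 ^ j *
      (((range N).filter fun n => thueMorse (A * (n + b) ^ d - B) = c).card : ℝ) +
      (3 * 2 ^ j * b + 3 * 2 ^ j * ((Nat.log 4 (N + b) : ℕ) + 2)) := by exact_mod_cast h1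
    have h3 := hlogN N hN
    have hl : 0 ≤ Real.log N := Real.log_natCast_nonneg _
    have hp : (0 : ℝ) < 3 * 2 ^ j := by positivity
    set K := (((range N).filter fun n => thueMorse (A * (n + b) ^ d - B) = c).card : ℝ)
    have hb0 : (0 : ℝ) ≤ b := by positivity
    have h4 : (1 / (3 * 2 ^ j) : ℝ) * N ≤ K + (b + ((Nat.log 4 (N + b) : ℕ) + 2)) := by
      rw [one_div, inv_mul_le_iff₀ hp]
      nlinarith
    nlinarith
  intro c hc N hN
  refine ⟨hreal c hc N hN, ?_⟩
  have h1 := hreal (1 - c) (by omega) N hN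
  have h2 : (((range N).filter fun n => thueMorse (A * (n + b) ^ d - B) = c).card : ℝ)
      + (((range N).filter fun n => thueMorse (A * (n + b) ^ d - B) = 1 - c).card : ℝ) = N := by
    exact_mod_cast hsum N c hc
  have h3 : (1 - 1 / (3 * 2 ^ j) : ℝ) * N = N - (1 / (3 * 2 ^ j) : ℝ) * N := by ring
  rw [h3]
  linarith

end Pool.Agent.Results.MP_b6022c_nt.PositiveDensity
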